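import Pool.Agent.H23.CM4.Targets

/-!
# Almost all class group characters of the CM quadratic extensions have small `L`-functions (CO1)
-/

set_option autoImplicit false

open NumberField MeasureTheory Set Filter Complex
open scoped nonZeroDivisors Real

namespace Pool.Agent.H63.CM4

open Pool.Agent.H23.CM4
open Pool.Agent.H31.CN (IsLf)
open Pool.Agent.H61.FM (CC pv Sp)
open Pool.Agent.H65.CM4 (gG Kc Sq nm dg)
open Pool.Agent.H25.HK (FI Pri du)

/-- restriction of a family to a smaller range of discriminants -/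
theorem Fml_sub {k : Type} [Field k] [NumberField k] {ι : Type} {S S' : Finset ι} {K : ι → Type}
    [∀ i, Field (K i)] [∀ i, NumberField (K i)] [∀ i, Algebra k (K i)]
    {F : ∀ i, CC (K i) → ℂ → ℂ} {a b a' b' : ℝ} (h : Fml k S K F a b) (hS : S' ⊆ S)
    (ha : ∀ i ∈ S', a' ≤ |(discr (K i) : ℝ)|) (hb : ∀ i ∈ S', |(discr (K i) : ℝ)| ≤ b') :
    Fml k S' K F a' b' :=
  ⟨fun i hi => h.cm i (hS hi), ha, hb, fun i hi j hj => h.ne i (hS hi) j (hS hj),
    fun i hi => h.lf i (hS hi)⟩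

/-- almost all characters -/
theorem pf_CO1 (hFM1 : T_FM1) (hCMX : T_CMX) : T_CO1 := by
  intro k _ _ _ ε hε
  obtain ⟨C₁, A, hC₁, h⟩ := hFM1 k ε hε
  have h4 : (4 : ℝ) ^ (-ε) < 1 := Real.rpow_lt_one_of_one_lt_of_neg (by norm_num) (by linarith)
  have h40 : 0 < (4 : ℝ) ^ (-ε) := by positivity
  have h41 : 0 < 1 - (4 : ℝ) ^ (-ε) := by linarith
  refine ⟨16 * C₁ / (1 - 4 ^ (-ε)), A, div_pos (by positivity) h41, ?_⟩
  intro X₀ η ι S₀ K _ _ _ F T₀ hX₀ hη0 hη1 hF₀ hT₀
  obtain ⟨C, hC⟩ : ∃ C, C = 16 * C₁ / (1 - (4 : ℝ) ^ (-ε)) := ⟨_, rfl⟩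
  rw [← hC]
  have hC0 : 0 < C := by
    rw [hC]
    exact div_pos (by positivity) h41
  have hCe : 16 * C₁ + C * (4 : ℝ) ^ (-ε) = C := by
    have h5 : C * (1 - (4 : ℝ) ^ (-ε)) = 16 * C₁ := by
      rw [hC]
      exact div_mul_cancel₀ _ h41.ne'
    linarith
  have ha : ε ≤ 3 / 2 - 4 * η + ε := by linarith
  have hd1 : ∀ i, 1 ≤ dK (K i) := fun i => hCMX.2 (K i)
  classical
  -- one dyadic range
  have one : ∀ (X : ℝ) (S : Finset ι) (T : Finset (Σ i, CC (K i))), 1 ≤ X →
      Fml k S K F (X / 4) X →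
      (∀ p ∈ T, p.1 ∈ S ∧ ∃ t : ℝ,
        (1 + |t|) ^ A * dK (K p.1) ^ η < ‖F p.1 p.2 (1 / 2 + t * I)‖) →
      (T.card : ℝ) ≤ 8 * C₁ * X ^ (3 / 2 - 4 * η + ε) := by
    intro X S T hX hF hT
    have hX0 : 0 < X := by linarith
    have hex : ∀ (i : ι) (ψ : CC (K i)), ∃ t : ℝ, (⟨i, ψ⟩ : Σ i, CC (K i)) ∈ T →
        (1 + |t|) ^ A * dK (K i) ^ η < ‖F i ψ (1 / 2 + t * I)‖ := by
      intro i ψ
      by_cases hp : (⟨i, ψ⟩ : Σ i, CC (K i)) ∈ T
      · obtain ⟨-, t, h1⟩ := hT _ hp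
        exact ⟨t, fun _ => h1⟩
      · exact ⟨0, fun h1 => absurd h1 hp⟩
    choose t ht using hex
    have h1 := h X ι S K F t hX hF
    have h2 : ∀ p ∈ T, X ^ (4 * η) / 8 ≤
        (‖F p.1 p.2 (1 / 2 + t p.1 p.2 * I)‖ / (1 + |t p.1 p.2|) ^ A) ^ 4 := by
      rintro ⟨i, ψ⟩ hp
      have hi : i ∈ S := (hT _ hp).1
      have hD := hF.lo i hi
      have hD0 : (0 : ℝ) < dK (K i) := by have := hd1 i; linarith
      have h5 : dK (K i) ^ η ≤ ‖F i ψ (1 / 2 + t i ψ * I)‖ / (1 + |t i ψ|) ^ A := by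
        rw [le_div_iff₀ (by positivity), mul_comm]
        exact (ht i ψ hp).le
      have h6 := pow_le_pow_left₀ (by positivity) h5 4
      refine le_trans ?_ h6
      rw [← Real.rpow_natCast (dK (K i) ^ η), ← Real.rpow_mul hD0.le]
      have h7 : η * ((4 : ℕ) : ℝ) = 4 * η := by
        push_cast
        ring
      rw [h7]
      have h8 : (X / 4) ^ (4 * η) ≤ dK (K i) ^ (4 * η) :=
        Real.rpow_le_rpow (by positivity) hD (by linarith)
      refine le_trans ?_ h8
      rw [Real.div_rpow hX0.le (by norm_num)]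
      refine div_le_div_of_nonneg_left (by positivity) (by positivity) ?_
      have h9 : (4 : ℝ) ^ (4 * η) ≤ (4 : ℝ) ^ (3 / 2 : ℝ) :=
        Real.rpow_le_rpow_of_exponent_le (by norm_num) (by linarith)
      refine h9.trans (le_of_eq ?_)
      rw [show (4 : ℝ) = 2 ^ (2 : ℝ) by norm_num, ← Real.rpow_mul (by norm_num)]
      norm_num
    have h3 : ∑ p ∈ T, (‖F p.1 p.2 (1 / 2 + t p.1 p.2 * I)‖ / (1 + |t p.1 p.2|) ^ A) ^ 4 ≤
        C₁ * X ^ (3 / 2 + ε) := by
      refine le_trans ?_ h1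
      rw [Finset.sum_sigma' (s := S) (t := fun _ => Finset.univ)
        (f := fun i ψ => (‖F i ψ (1 / 2 + t i ψ * I)‖ / (1 + |t i ψ|) ^ A) ^ 4)]
      refine Finset.sum_le_sum_of_subset_of_nonneg ?_ ?_
      · intro p hp
        exact Finset.mem_sigma.2 ⟨(hT p hp).1, Finset.mem_univ _⟩
      · intro p _ _
        positivity
    have h3 := (Finset.sum_le_sum h2).trans h3
    rw [Finset.sum_const, nsmul_eq_mul] at h3
    have h5 : X ^ (3 / 2 + ε) = X ^ (3 / 2 - 4 * η + ε) * X ^ (4 * η) := by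
      rw [← Real.rpow_add hX0]
      congr 1
      ring
    rw [h5] at h3
    have h6 : 0 < X ^ (4 * η) := by positivity
    refine le_of_mul_le_mul_right ?_ h6
    linarith
  have key : ∀ m : ℕ, ∀ (X : ℝ) (S : Finset ι) (T : Finset (Σ i, CC (K i))), 1 ≤ X →
      X ≤ 4 ^ m → Fml k S K F 0 X →
      (∀ p ∈ T, p.1 ∈ S ∧ ∃ t : ℝ,
        (1 + |t|) ^ A * dK (K p.1) ^ η < ‖F p.1 p.2 (1 / 2 + t * I)‖) →
      (T.card : ℝ) ≤ C * X ^ (3 / 2 - 4 * η + ε) := by
    intro m
    induction m with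
    | zero =>
      intro X S T hX hX1 hF hT
      rw [pow_zero] at hX1
      have hX2 : 0 < X ^ (3 / 2 - 4 * η + ε) := by positivity
      have h1 := one X S T hX (Fml_sub hF (Finset.Subset.refl S) (fun i _ => by
        have := hd1 i
        unfold dK at this
        linarith) hF.hi) hT
      refine h1.trans (mul_le_mul_of_nonneg_right ?_ hX2.le)
      have := mul_pos hC0 h40
      linarith
    | succ m ih =>
      intro X S T hX hXm hF hT
      have hX0 : 0 < X := by linarith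
      have hX2 : 0 < X ^ (3 / 2 - 4 * η + ε) := by positivity
      have hcard : (T.card : ℝ) = ((T.filter fun p => X / 4 ≤ dK (K p.1)).card : ℝ) +
          ((T.filter fun p => ¬ X / 4 ≤ dK (K p.1)).card : ℝ) := by
        have h1 := Finset.card_filter_add_card_filter_not (s := T)
          (fun p => X / 4 ≤ dK (K p.1))
        exact_mod_cast h1.symm
      have h1 := one X (S.filter fun i => X / 4 ≤ dK (K i))
        (T.filter fun p => X / 4 ≤ dK (K p.1)) hX
        (Fml_sub hF (Finset.filter_subset _ _) (fun i hi => (Finset.mem_filter.1 hi).2)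
          (fun i hi => hF.hi i (Finset.mem_filter.1 hi).1)) (by
          intro p hp
          obtain ⟨hp1, hp2⟩ := Finset.mem_filter.1 hp
          obtain ⟨h3, h4⟩ := hT p hp1
          exact ⟨Finset.mem_filter.2 ⟨h3, hp2⟩, h4⟩)
      have h2 : ((T.filter fun p => ¬ X / 4 ≤ dK (K p.1)).card : ℝ) ≤
          C * (4 : ℝ) ^ (-ε) * X ^ (3 / 2 - 4 * η + ε) := by
        by_cases h3 : X < 4
        · have h4 : (T.filter fun p => ¬ X / 4 ≤ dK (K p.1)) = ∅ := by
            rw [Finset.filter_eq_empty_iff]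
            intro p _ h5
            have h7 := hd1 p.1
            apply h5
            linarith
          rw [h4, Finset.card_empty, Nat.cast_zero]
          positivity
        · push Not at h3
          have h4 := ih (X / 4) (S.filter fun i => ¬ X / 4 ≤ dK (K i))
            (T.filter fun p => ¬ X / 4 ≤ dK (K p.1)) (by linarith)
            (by rw [pow_succ] at hXm; linarith)
            (Fml_sub hF (Finset.filter_subset _ _)
              (fun i hi => hF.lo i (Finset.mem_filter.1 hi).1)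
              (fun i hi => (not_le.1 (Finset.mem_filter.1 hi).2).le)) (by
              intro p hp
              obtain ⟨hp1, hp2⟩ := Finset.mem_filter.1 hp
              obtain ⟨h3, h4⟩ := hT p hp1
              exact ⟨Finset.mem_filter.2 ⟨h3, hp2⟩, h4⟩)
          refine h4.trans ?_
          rw [Real.div_rpow hX0.le (by norm_num), mul_assoc]
          refine mul_le_mul_of_nonneg_left ?_ hC0.le
          rw [div_eq_mul_inv, mul_comm, ← Real.rpow_neg (by norm_num)]
          refine mul_le_mul_of_nonneg_right ?_ hX2.le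
          exact Real.rpow_le_rpow_of_exponent_le (by norm_num) (by linarith)
      rw [hcard]
      have h3 : 8 * C₁ * X ^ (3 / 2 - 4 * η + ε) ≤ 16 * C₁ * X ^ (3 / 2 - 4 * η + ε) :=
        mul_le_mul_of_nonneg_right (by linarith) hX2.le
      calc _ ≤ 16 * C₁ * X ^ (3 / 2 - 4 * η + ε) +
              C * (4 : ℝ) ^ (-ε) * X ^ (3 / 2 - 4 * η + ε) := by
            linarith
        _ = (16 * C₁ + C * (4 : ℝ) ^ (-ε)) * X ^ (3 / 2 - 4 * η + ε) := by ring
        _ = C * X ^ (3 / 2 - 4 * η + ε) := by rw [hCe]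
  obtain ⟨m, hm⟩ := pow_unbounded_of_one_lt X₀ (show (1 : ℝ) < 4 by norm_num)
  exact key m X₀ S₀ T₀ hX₀ hm.le hF₀ hT₀

end Pool.Agent.H63.CM4
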