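import Pool.Agent.H3.HK.GA
import Pool.Agent.H3.HK.GM
import Pool.Agent.H3.HK.LB
import Pool.Agent.H3.HK.TH
import Pool.Agent.H16.HK.GS
import Pool.Agent.H16.HK.PO
import Pool.Agent.H16.HK.PS
import Pool.Agent.H41.HK.BI
import Pool.Agent.H41.HK.G1
import Pool.Agent.H41.HK.GI
import Pool.Agent.H41.HK.JA
import Pool.Agent.H41.HK.UN
import Pool.Agent.H63.HK.CS
import Pool.Agent.H63.HK.DS
import Pool.Agent.H63.HK.DU
import Pool.Agent.H63.HK.WP
import Pool.Agent.H66.HK.FD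
import Pool.Agent.H66.HK.ME
import Pool.Agent.H87.HK.CT
import Pool.Agent.H87.HK.DC
import Pool.Agent.H87.HK.UI
import Pool.Agent.H87.HK.YC

/-!
# Hecke's theory of the partial zeta functions: the proved statements
-/

set_option autoImplicit false

namespace Pool.Agent.H63.CM4

open Pool.Agent.H25.HK

theorem hk_TH : T_TH :=
  Pool.Agent.H3.HK.th_fe (Pool.Agent.H16.HK.po Pool.Agent.H16.HK.ps Pool.Agent.H3.HK.ga
    Pool.Agent.H16.HK.gs) Pool.Agent.H3.HK.gm Pool.Agent.H3.HK.lb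

theorem hk_YC : T_YC := Pool.Agent.H87.HK.yc_main

theorem hk_UI : T_UI := Pool.Agent.H87.HK.ui hk_YC

theorem hk_CT : T_CT := Pool.Agent.H87.HK.ct hk_TH

theorem hk_DC : T_DC := Pool.Agent.H87.HK.dc hk_TH hk_YC Pool.Agent.H66.HK.fd

theorem hk_GI : T_GI := Pool.Agent.H41.HK.gi Pool.Agent.H41.HK.ja Pool.Agent.H41.HK.g1 hk_YC

theorem hk_DU : T_DU := Pool.Agent.H63.HK.du

theorem hk_DS : T_DS := Pool.Agent.H63.HK.ds

theorem hk_CS : T_CS := Pool.Agent.H63.HK.cs hk_DU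

theorem hk_WP : T_WP :=
  Pool.Agent.H63.HK.wp hk_TH hk_UI Pool.Agent.H66.HK.fd hk_CT hk_DC hk_DU hk_YC

theorem hk_ME : T_ME :=
  Pool.Agent.H66.HK.me Pool.Agent.H41.HK.bi Pool.Agent.H41.HK.un hk_GI
    Pool.Agent.H66.HK.fd hk_TH Pool.Agent.H63.HK.ds hk_CT hk_YC hk_UI

end Pool.Agent.H63.CM4
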