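import Pool.Agent.H95.CM.Targets
import Pool.Agent.H25.HK.HE
import Pool.Agent.H63.CM4.HKA

/-!
# The class group `L`-functions of a totally complex field exist
-/

set_option autoImplicit false

open MeasureTheory Set Filter NumberField
open scoped Real nonZeroDivisors

namespace Pool.Agent.H63.CM4

open Pool.Agent.H65.CM4
open Pool.Agent.H95.CM
open Pool.Agent.H31.CN (IsLf)
open Pool.Agent.H61.FM (CC pv)
open Pool.Agent.H25.HK (FI Pri gK Fd ff)
open Pool.Agent.H63.HK (nzI pri_iff)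

/-- the reciprocal of the complex Gamma factor, divided by `s` -/
noncomputable def eG (s : ℂ) : ℂ := 2⁻¹ * (2 * (π : ℂ)) ^ s * (Complex.Gamma (s + 1))⁻¹

theorem eG_diff : Differentiable ℂ eG := by
  have h1 : Differentiable ℂ fun s : ℂ => (Complex.Gamma (s + 1))⁻¹ :=
    Complex.differentiable_one_div_Gamma.comp (differentiable_id.add_const 1)
  have h2 : Differentiable ℂ fun s : ℂ => (2 * (π : ℂ)) ^ s := by
    intro s
    exact differentiableAt_id.const_cpow (Or.inl (mul_ne_zero two_ne_zero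
      (by exact_mod_cast Real.pi_pos.ne')))
  exact (h2.const_mul _).mul h1

theorem Gammaℂ_inv (s : ℂ) : (Complex.Gammaℂ s)⁻¹ = s * eG s := by
  rw [Complex.Gammaℂ_def, mul_inv, mul_inv, Complex.cpow_neg, inv_inv,
    Complex.one_div_Gamma_eq_self_mul_one_div_Gamma_add_one]
  unfold eG
  ring

theorem gK_inv (K : Type) [Field K] [NumberField K] [IsTotallyComplex K] :
    ∃ h : ℂ → ℂ, Differentiable ℂ h ∧ ∀ s, (gK K s)⁻¹ = s * h s := by
  have h0 : InfinitePlace.nrRealPlaces K = 0 := nrRealPlaces_eq_zero_iff.2 inferInstance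
  have h1 := InfinitePlace.card_add_two_mul_card_eq_rank K
  have h2 : 0 < Module.finrank ℚ K := Module.finrank_pos
  obtain ⟨l, hl⟩ : ∃ l, InfinitePlace.nrComplexPlaces K = l + 1 :=
    ⟨InfinitePlace.nrComplexPlaces K - 1, by omega⟩
  refine ⟨fun s => s ^ l * eG s ^ (l + 1),
    (differentiable_id.pow l).mul (eG_diff.pow (l + 1)), fun s => ?_⟩
  unfold gK
  rw [h0, hl, pow_zero, one_mul, ← inv_pow, Gammaℂ_inv, mul_pow, pow_succ]
  ring

open scoped Classical in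
/-- the partial zeta function of a class -/
theorem class_fun (K : Type) [Field K] [NumberField K] [IsTotallyComplex K] (M : FI K)
    (hM : M ≠ 0) : ∃ G : ℂ → ℂ, DifferentiableOn ℂ G {1}ᶜ ∧ ∀ s : ℂ, 1 < s.re →
      G s = ∑' I : {I : Ideal (𝓞 K) // Pri K M I}, (Ideal.absNorm I.1 : ℂ) ^ (-s) := by
  obtain ⟨P, hPf, hPg, hPk, hPε, hPf0, hPg0⟩ := hk_WP K M hM
  obtain ⟨h, hh, hg⟩ := gK_inv K
  have hN0 : 0 < (FractionalIdeal.absNorm M : ℝ) := (hk_DU K M hM).2.2.2.1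
  set N : ℝ := (FractionalIdeal.absNorm M : ℝ) with hN
  set c0 : ℂ := (Units.torsionOrder K : ℂ) *
    ((2 : ℂ) ^ (InfinitePlace.nrRealPlaces K + InfinitePlace.nrComplexPlaces K))⁻¹ with hc0
  have hc0' : c0 ≠ 0 := by
    have h1 : (Units.torsionOrder K : ℂ) ≠ 0 := by
      exact_mod_cast (Units.torsionOrder_pos K).ne'
    exact mul_ne_zero h1 (inv_ne_zero (pow_ne_zero _ two_ne_zero))
  refine ⟨fun s => c0⁻¹ * (N : ℂ) ^ s * (P.Λ₀ s * (s * h s) - P.f₀ * h s -
    P.ε * P.g₀ * (s * h s) / (1 - s)), ?_, ?_⟩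
  · intro s hs
    have hs1 : (1 : ℂ) - s ≠ 0 := by
      intro h1
      apply hs
      change s = 1
      linear_combination -h1
    have h1 : DifferentiableAt ℂ (fun s : ℂ => (N : ℂ) ^ s) s :=
      differentiableAt_id.const_cpow (Or.inl (by exact_mod_cast hN0.ne'))
    have h2 : DifferentiableAt ℂ P.Λ₀ s := P.differentiable_Λ₀ s
    have h3 : DifferentiableAt ℂ h s := hh s
    exact (((h1.const_mul _).mul (((h2.mul (differentiableAt_id.mul h3)).sub
      (h3.const_mul _)).sub (((differentiableAt_id.mul h3).const_mul _).div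
        (differentiableAt_id.const_sub 1) hs1)))).differentiableWithinAt
  · intro s hs
    have hs0 : s ≠ 0 := by
      intro h1
      rw [h1, Complex.zero_re] at hs
      linarith
    have hg0 : gK K s ≠ 0 := Pool.Agent.H25.HK.gK_ne_of_re K hs
    have h1 := (P.hasMellin (s := s) (by rw [hPk]; exact hs)).2
    have h2 : (fun x => P.f x - P.f₀) =
        fun t => (ff K M t : ℂ) - (volume.real (Fd K) : ℝ) := by
      funext t
      rw [hPf, hPf0]
    rw [h2, hk_ME K M hM s hs] at h1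
    have h4 : P.Λ₀ s * (s * h s) - P.f₀ * h s - P.ε * P.g₀ * (s * h s) / (1 - s) =
        P.Λ s * (gK K s)⁻¹ := by
      rw [hg s]
      unfold WeakFEPair.Λ
      rw [hPk, smul_eq_mul, smul_eq_mul, Complex.ofReal_one]
      field_simp
    have h3 : ((N : ℝ) : ℂ) ^ s * ((N : ℝ) : ℂ) ^ (-s) = 1 := by
      rw [← Complex.cpow_add _ _ (by exact_mod_cast hN0.ne'), add_neg_cancel, Complex.cpow_zero]
    simp only
    rw [h4, ← h1, ← hc0, ← hN]
    set Z : ℂ := ∑' I : {I : Ideal (𝓞 K) // Pri K M I}, (Ideal.absNorm I.1 : ℂ) ^ (-s) with hZ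
    calc c0⁻¹ * (N : ℂ) ^ s * (c0 * gK K s * (N : ℂ) ^ (-s) * Z * (gK K s)⁻¹)
        = (c0⁻¹ * c0) * ((N : ℂ) ^ s * (N : ℂ) ^ (-s)) * (gK K s * (gK K s)⁻¹) * Z := by ring
      _ = Z := by rw [inv_mul_cancel₀ hc0', h3, mul_inv_cancel₀ hg0]; ring

/-- the values of a character have absolute value one -/
theorem norm_char {K : Type} [Field K] [NumberField K] (ψ : CC K) (c : ClassGroup (𝓞 K)) :
    ‖((ψ c : ℂˣ) : ℂ)‖ = 1 := by
  have h1 : ((ψ c : ℂˣ) : ℂ) ^ Fintype.card (ClassGroup (𝓞 K)) = 1 := by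
    rw [← Units.val_pow_eq_pow_val, ← map_pow, pow_card_eq_one, map_one, Units.val_one]
  exact Complex.norm_eq_one_of_pow_eq_one h1 Fintype.card_ne_zero

open scoped Classical in
/-- the class group `L`-functions exist -/
theorem pf_EXL : T_EXL := by
  intro K _ _ _ ψ
  obtain ⟨ι, hι, M, hM0, hM1, -⟩ := hk_CS K
  choose G hGd hGs using fun c => class_fun K (M c) (hM0 c)
  have hcl : ∀ c, ∃ z : ℂ, ∀ J : (Ideal (𝓞 K))⁰, Pri K (M c) J → pv ψ J = z := by
    intro c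
    obtain ⟨u, hu⟩ : ∃ u : (FI K)ˣ, (u : FI K) = M c := ⟨Units.mk0 (M c) (hM0 c), rfl⟩
    refine ⟨((ψ (ClassGroup.mk (K := K) u)⁻¹ : ℂˣ) : ℂ), fun J hJ => ?_⟩
    rw [← hu, pri_iff K u J hJ.1] at hJ
    have h1 : nzI K (J : Ideal (𝓞 K)) (nonZeroDivisors.ne_zero J.2) = J := rfl
    rw [h1] at hJ
    unfold pv
    rw [eq_inv_of_mul_eq_one_left hJ]
  choose z hz using hcl
  refine ⟨fun s => ∑ c, z c * G c s, ?_, ?_⟩
  · intro s hs
    exact DifferentiableWithinAt.fun_sum fun c _ => (hGd c s hs).const_mul (z c)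
  · intro s hs
    set f : Ideal (𝓞 K) → ℂ := fun I => if h : I ≠ ⊥ then pv ψ (nzI K I h) *
      (Ideal.absNorm I : ℂ) ^ (-s) else 0 with hf
    have hf1 : ∀ J : (Ideal (𝓞 K))⁰, f J = pv ψ J * (Ideal.absNorm (J : Ideal (𝓞 K)) : ℂ) ^ (-s) := by
      intro J
      have h1 : (J : Ideal (𝓞 K)) ≠ ⊥ := nonZeroDivisors.ne_zero J.2
      rw [hf]
      simp only
      rw [dif_pos h1]
      rfl
    obtain ⟨h1, -⟩ := hk_DS K s hs
    have h2 : Summable fun I : {I : Ideal (𝓞 K) // I ≠ ⊥} => ‖f I‖ := by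
      refine h1.congr fun I => ?_
      have h3 := hf1 (nzI K I.1 I.2)
      have h4 : f I.1 = pv ψ (nzI K I.1 I.2) * (Ideal.absNorm I.1 : ℂ) ^ (-s) := h3
      rw [h4, norm_mul]
      have h5 : ‖pv ψ (nzI K I.1 I.2)‖ = 1 := norm_char ψ _
      rw [h5, one_mul]
    have h3 := Pool.Agent.H25.HK.sum_partition (fun I : Ideal (𝓞 K) => I ≠ ⊥)
      (fun c I => Pri K (M c) I) (fun c I h => h.1) hM1 f h2
    have h4 : ∀ c, ∑' I : {I : Ideal (𝓞 K) // Pri K (M c) I}, f I = z c * G c s := by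
      intro c
      rw [hGs c s hs, ← tsum_mul_left]
      refine tsum_congr fun I => ?_
      have h5 : f I.1 = pv ψ (nzI K I.1 I.2.1) * (Ideal.absNorm I.1 : ℂ) ^ (-s) :=
        hf1 (nzI K I.1 I.2.1)
      rw [h5, hz c (nzI K I.1 I.2.1) I.2]
    rw [Finset.sum_congr rfl fun c _ => h4 c] at h3
    have h5 : HasSum (fun I : {I : Ideal (𝓞 K) // I ≠ ⊥} => f I) (∑ c, z c * G c s) := by
      rw [h3]
      exact h2.of_norm.hasSum
    let e : (Ideal (𝓞 K))⁰ ≃ {I : Ideal (𝓞 K) // I ≠ ⊥} :=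
      Equiv.subtypeEquivRight fun I => mem_nonZeroDivisors_iff_ne_zero
    have h6 := (e.hasSum_iff (f := fun I : {I : Ideal (𝓞 K) // I ≠ ⊥} => f I)).2 h5
    have h7 : (fun J : (Ideal (𝓞 K))⁰ => ((ψ (ClassGroup.mk0 J) : ℂˣ) : ℂ) *
        (Ideal.absNorm (J : Ideal (𝓞 K)) : ℂ) ^ (-s)) =
        (fun I : {I : Ideal (𝓞 K) // I ≠ ⊥} => f I) ∘ e := by
      funext J
      exact (hf1 J).symm
    rw [h7]
    exact h6

end Pool.Agent.H63.CM4
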