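import Pool.Agent.H95.CM.Targets

/-!
# Different ideals have different lattices
-/

set_option autoImplicit false

open MeasureTheory Set Filter NumberField
open scoped Real nonZeroDivisors

namespace Pool.Agent.H63.CM4

open Pool.Agent.H65.CM4
open Pool.Agent.H95.CM
open Pool.Agent.H31.CN (IsLf)
open Pool.Agent.H61.FM (CC pv)

/-- different ideals have different lattices -/
theorem pf_INJ : T_INJ := by
  intro k K _ _ _ _ _ _ _ _ b I α β μ M Q _ hI hO P P' h
  have key : ∀ R R' : Ideal (𝓞 K), lt (k := k) α β (R * I) = lt (k := k) α β (R' * I) →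
      R * I ≤ R' * I := by
    intro R R' hRR x hx
    obtain ⟨u, hu⟩ := hO.mem x ((Ideal.mul_le_right : R * I ≤ I) hx)
    have h1 : u ∈ lt (k := k) α β (R * I) := ⟨x, hx, hu.symm⟩
    rw [hRR] at h1
    obtain ⟨x', hx', e⟩ := h1
    have h2 : x' = x := by
      apply RingOfIntegers.coe_injective
      exact e.trans hu
    rw [← h2]
    exact hx'
  have h1 : P * I = P' * I := le_antisymm (key P P' h) (key P' P h.symm)
  exact mul_right_cancel₀ hI h1

end Pool.Agent.H63.CM4
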